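import Pool.Agent.H947R2.TP.Stubs

/-! A5: Hajós' theorem for finite abelian groups, from A1 - A4. -/

set_option autoImplicit false

namespace H947TP

open Finset

namespace A5

instance finite_dual (G : Type) [CommGroup G] [Finite G] : Finite (G →* ℂˣ) := by
  obtain ⟨e⟩ := CommGroup.monoidHom_mulEquiv_of_hasEnoughRootsOfUnity G ℂ
  exact Finite.of_equiv G e.symm.toEquiv

theorem cardFactors_finset_prod {ι : Type} (I : Finset ι) (q : ι → ℕ) (hq : ∀ i, 2 ≤ q i) :
    ArithmeticFunction.cardFactors (∏ i ∈ I, q i) = ∑ i ∈ I, ArithmeticFunction.cardFactors (q i) := by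
  classical
  induction I using Finset.induction_on with
  | empty => simp
  | insert i I hi ih =>
    rw [Finset.prod_insert hi, Finset.sum_insert hi, ArithmeticFunction.cardFactors_mul, ih]
    · have := hq i; omega
    · exact Finset.prod_ne_zero_iff.2 (fun j _ => by have := hq j; omega)

/-- evaluation characters -/
def ev {G : Type} [CommGroup G] (x : G) : (G →* ℂˣ) →* ℂˣ where
  toFun χ := χ x
  map_one' := rfl
  map_mul' _ _ := rfl

theorem inj_restrict {G : Type} [CommGroup G] {ι : Type} [Fintype ι]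
    (g : ι → G) (q : ι → ℕ) (hq : ∀ i, 2 ≤ q i)
    (hbij : Function.Bijective (fun a : (∀ i, Fin (q i)) => ∏ i, g i ^ (a i : ℕ)))
    (I : Finset ι) :
    Function.Injective (fun a : (∀ i : {x // x ∈ I}, Fin (q i.1)) => ∏ i, g i.1 ^ (a i : ℕ)) := by
  classical
  intro a b hab
  let ext : (∀ i : {x // x ∈ I}, Fin (q i.1)) → (∀ i, Fin (q i)) := fun a i =>
    if h : i ∈ I then a ⟨i, h⟩ else ⟨0, by have := hq i; omega⟩
  have hext : ∀ a, ∏ i, g i ^ ((ext a i : Fin (q i)) : ℕ) = ∏ i : {x // x ∈ I}, g i.1 ^ (a i : ℕ) := by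
    intro a
    rw [← Finset.prod_subset (Finset.subset_univ I)]
    · rw [← Finset.prod_coe_sort]
      refine Finset.prod_congr rfl (fun i _ => ?_)
      simp only [ext, dif_pos i.2]
    · intro i _ hi
      simp only [ext, dif_neg hi, pow_zero]
  have h1 : ext a = ext b := by
    apply hbij.1
    show ∏ i, g i ^ ((ext a i : Fin (q i)) : ℕ) = ∏ i, g i ^ ((ext b i : Fin (q i)) : ℕ)
    rw [hext, hext]
    exact hab
  funext i
  have h2 := congrFun h1 i.1
  simp only [ext, dif_pos i.2] at h2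
  exact h2

end A5

open A5 in
theorem A5 (h1 : St_A1) (h2 : St_A2) (h3 : St_A3) (h4 : St_A4) : St_A5 := by
  classical
  suffices H : ∀ (n : ℕ) (G : Type) [CommGroup G] [Finite G] (ι : Type) [Fintype ι] [Nonempty ι]
      (g : ι → G) (q : ι → ℕ), Fintype.card ι = n → (∀ i, 2 ≤ q i) →
      Function.Bijective (fun a : (∀ i, Fin (q i)) => ∏ i, g i ^ (a i : ℕ)) →
      ∃ i, g i ^ (q i) = 1 by
    intro G _ _ ι _ _ g q hq hbij
    exact H _ G ι g q rfl hq hbij
  intro n
  induction n using Nat.strong_induction_on with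
  | _ n IH =>
  intro G _ _ ι _ _ g q hn hq hbij
  obtain ⟨i0⟩ := ‹Nonempty ι›
  set a : G := g i0 ^ q i0 with ha
  let c : Option ι → ((G →* ℂˣ) →* ℂˣ) := fun o => o.elim (ev a) (fun i => ev (g i))
  let q' : Option ι → ℕ := fun o => o.elim 0 q
  let Cov : Finset (Option ι) → Prop := fun K =>
    ∀ χ : G →* ℂˣ, ∃ k ∈ K, c k χ ∈ Zq (q' k)
  have hZ0 : ∀ z : ℂˣ, z ∈ Zq 0 ↔ z = 1 := by
    intro z
    simp [Zq]
  have hZq : ∀ (i : ι) (z : ℂˣ), z ∈ Zq (q i) ↔ z ^ (q i) = 1 ∧ z ≠ 1 := by
    intro i z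
    have : q i ≠ 0 := by have := hq i; omega
    simp [Zq, this]
  have hcov0 : Cov (Finset.univ.erase (some i0)) := by
    intro χ
    by_cases hχ : χ a = 1
    · exact ⟨none, by simp, (hZ0 _).2 hχ⟩
    · have hχ1 : χ ≠ 1 := by
        rintro rfl
        exact hχ rfl
      obtain ⟨i, hi1, hi2⟩ := h2 G ι g q hq hbij χ hχ1
      refine ⟨some i, ?_, (hZq i _).2 ⟨hi1, hi2⟩⟩
      rw [Finset.mem_erase]
      refine ⟨?_, Finset.mem_univ _⟩
      intro h
      have h' : i = i0 := Option.some.inj h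
      subst h'
      apply hχ
      rw [ha, map_pow]
      exact hi1
  -- a minimal subcover
  obtain ⟨K, hK, hKmin⟩ := Finset.exists_min_image
    ((Finset.univ.erase (some i0)).powerset.filter Cov) Finset.card
    ⟨_, Finset.mem_filter.2 ⟨Finset.mem_powerset.2 (Finset.Subset.refl _), hcov0⟩⟩
  rw [Finset.mem_filter, Finset.mem_powerset] at hK
  obtain ⟨hKsub, hKcov⟩ := hK
  have hirr : ∀ k ∈ K, ∃ χ : G →* ℂˣ, ∀ j ∈ K, c j χ ∈ Zq (q' j) → j = k := by
    intro k hk
    by_contra hcon
    push Not at hcon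
    have hcov : Cov (K.erase k) := by
      intro χ
      obtain ⟨j, hj, hj1, hj2⟩ := hcon χ
      exact ⟨j, Finset.mem_erase.2 ⟨hj2, hj⟩, hj1⟩
    have h5 := hKmin (K.erase k) (Finset.mem_filter.2
      ⟨Finset.mem_powerset.2 ((Finset.erase_subset _ _).trans hKsub), hcov⟩)
    rw [Finset.card_erase_of_mem hk] at h5
    have : 0 < K.card := Finset.card_pos.2 ⟨k, hk⟩
    omega
  have hnone : none ∈ K := by
    obtain ⟨k, hk, hk1⟩ := hKcov 1
    rcases k with _ | i
    · exact hk
    · exfalso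
      have := (hZq i _).1 hk1
      exact this.2 rfl
  have hi0 : some i0 ∉ K := fun h => (Finset.mem_erase.1 (hKsub h)).1 rfl
  let I : Finset ι := Finset.univ.filter (fun i => some i ∈ K)
  have hI : ∀ i, i ∈ I ↔ some i ∈ K := fun i => by simp [I]
  have hKI : K = insert none (I.image some) := by
    ext o
    rcases o with _ | i
    · simp [hnone]
    · simp [hI]
  have hA1 := h1 (G →* ℂˣ) (Option ι) c q' (by
    intro o
    rcases o with _ | i
    · exact Or.inl rfl
    · exact Or.inr (hq i)) ⊤ 1 K (by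
      intro χ _
      obtain ⟨k, hk, hk1⟩ := hKcov χ
      exact ⟨k, hk, (congrArg (fun y => c k y ∈ Zq (q' k)) (one_mul χ)).mpr hk1⟩) (by
      intro k hk
      obtain ⟨χ, hχ⟩ := hirr k hk
      refine ⟨χ, Subgroup.mem_top _, fun j hj hj1 => hχ j hj ?_⟩
      exact (congrArg (fun y => c j y ∈ Zq (q' j)) (one_mul χ)).mp hj1)
  have hsum : ∑ k ∈ K, wt (q' k) = 1 + ∑ i ∈ I, ArithmeticFunction.cardFactors (q i) := by
    rw [hKI, Finset.sum_insert (by simp), Finset.sum_image (fun i _ j _ h => Option.some.inj h)]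
    congr 1
    refine Finset.sum_congr rfl (fun i _ => ?_)
    have : q i ≠ 0 := by have := hq i; omega
    show wt (q i) = _
    rw [wt, if_neg this]
  rw [hsum] at hA1
  set P : Subgroup (G →* ℂˣ) := ⊤ ⊓ ⨅ k ∈ K, (c k).ker with hP
  set H : Subgroup G := Subgroup.closure (insert a (g '' (I : Set ι))) with hH
  have haH : a ∈ H := Subgroup.subset_closure (Set.mem_insert _ _)
  have hgH : ∀ i ∈ I, g i ∈ H := fun i hi =>
    Subgroup.subset_closure (Set.mem_insert_of_mem _ ⟨i, hi, rfl⟩)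
  have hPH : ∀ χ : G →* ℂˣ, χ ∈ P ↔ ∀ h ∈ H, χ h = 1 := by
    intro χ
    have e1 : χ ∈ P ↔ ∀ k ∈ K, c k χ = 1 := by
      rw [hP, Subgroup.mem_inf, Subgroup.mem_iInf]
      simp only [Subgroup.mem_top, true_and, Subgroup.mem_iInf, MonoidHom.mem_ker]
    have e2 : (∀ h ∈ H, χ h = 1) ↔ H ≤ χ.ker := Iff.rfl
    rw [e1, e2, hH, Subgroup.closure_le]
    constructor
    · intro h5 x hx
      rcases hx with rfl | ⟨i, hi, rfl⟩
      · exact h5 none hnone
      · exact h5 (some i) ((hI i).1 hi)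
    · intro h5 k hk
      rcases k with _ | i
      · exact h5 (Set.mem_insert _ _)
      · exact h5 (Set.mem_insert_of_mem _ ⟨i, (hI i).2 hk, rfl⟩)
  have hidx := h3 G H P hPH
  rw [Subgroup.relIndex_top_right, hidx] at hA1
  have hdvd := h4 G ι g q hq hbij I H hgH
  obtain ⟨m, hm⟩ := hdvd
  have hcardH : Nat.card H ≠ 0 := Nat.card_pos.ne'
  have hprod : (∏ i ∈ I, q i) ≠ 0 := fun h => hcardH (by rw [hm, h, zero_mul])
  have hm0 : m ≠ 0 := fun h => hcardH (by rw [hm, h, mul_zero])
  rw [hm, ArithmeticFunction.cardFactors_mul hprod hm0, cardFactors_finset_prod I q hq] at hA1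
  have hm1 : m = 1 := by
    have : ArithmeticFunction.cardFactors m = 0 := by omega
    rcases ArithmeticFunction.cardFactors_eq_zero_iff_eq_zero_or_one.1 this with h | h
    · exact absurd h hm0
    · exact h
  rw [hm1, mul_one] at hm
  rcases Finset.eq_empty_or_nonempty I with hIe | hIne
  · rw [hIe, Finset.prod_empty] at hm
    refine ⟨i0, ?_⟩
    have : Subsingleton H := (Nat.card_eq_one_iff_unique.1 hm).1
    have h5 : (⟨a, haH⟩ : H) = 1 := Subsingleton.elim _ _
    exact congrArg Subtype.val h5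
  · obtain ⟨i1, hi1⟩ := hIne
    have : Nonempty {x // x ∈ I} := ⟨⟨i1, hi1⟩⟩
    have hcard : Fintype.card {x // x ∈ I} < n := by
      rw [← hn, Fintype.card_coe]
      rw [← Finset.card_univ]
      refine Finset.card_lt_card ⟨Finset.subset_univ _, fun h => ?_⟩
      exact hi0 ((hI i0).1 (h (Finset.mem_univ i0)))
    obtain ⟨i, hi⟩ := IH _ hcard H {x // x ∈ I} (fun i => ⟨g i.1, hgH i.1 i.2⟩) (fun i => q i.1)
      rfl (fun i => hq i.1) (by
        refine Function.Injective.bijective_of_nat_card_le ?_ ?_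
        · intro x y hxy
          apply inj_restrict g q hq hbij I
          have h5 := congrArg Subtype.val hxy
          simp only at h5
          rw [Subgroup.val_finsetProd, Subgroup.val_finsetProd] at h5
          exact h5
        · rw [hm, Nat.card_eq_fintype_card, Fintype.card_pi]
          simp only [Fintype.card_fin]
          rw [Finset.prod_coe_sort I q])
    refine ⟨i.1, ?_⟩
    exact congrArg Subtype.val hi

end H947TP
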