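import Pool.Agent.H947R2.TP.Stubs

/-! A6: the integer version of Hajós' theorem. -/

set_option autoImplicit false

namespace H947TP

open Finset

theorem A6 (h : St_A5) : St_A6 := by
  classical
  intro D N hD hN Λ hΛ
  have : Nonempty (Fin D) := ⟨⟨0, hD⟩⟩
  let G : Type := Multiplicative ((Fin D → ℤ) ⧸ Λ)
  let g : Fin D → G := fun i =>
    Multiplicative.ofAdd (QuotientAddGroup.mk (Pi.single i (1 : ℤ)) : (Fin D → ℤ) ⧸ Λ)
  have hprod : ∀ a : Fin D → Fin N, ∏ i, g i ^ (a i : ℕ) =
      Multiplicative.ofAdd (QuotientAddGroup.mk (fun i => ((a i : ℕ) : ℤ)) : (Fin D → ℤ) ⧸ Λ) := by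
    intro a
    have h1 : (fun i => ((a i : ℕ) : ℤ)) = ∑ i, (a i : ℕ) • (Pi.single i (1 : ℤ) : Fin D → ℤ) := by
      funext j
      rw [Finset.sum_apply, Finset.sum_eq_single j]
      · simp
      · intro i _ hi
        simp [hi.symm]
      · intro hj
        exact absurd (Finset.mem_univ j) hj
    rw [h1]
    have h2 : (QuotientAddGroup.mk (∑ i, (a i : ℕ) • (Pi.single i (1 : ℤ) : Fin D → ℤ)) :
        (Fin D → ℤ) ⧸ Λ) = ∑ i, (a i : ℕ) • (QuotientAddGroup.mk (Pi.single i (1 : ℤ)) :
        (Fin D → ℤ) ⧸ Λ) := by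
      have := map_sum (QuotientAddGroup.mk' Λ)
        (fun i => (a i : ℕ) • (Pi.single i (1 : ℤ) : Fin D → ℤ)) Finset.univ
      refine this.trans (Finset.sum_congr rfl fun i _ => ?_)
      exact map_nsmul (QuotientAddGroup.mk' Λ) _ _
    rw [h2, ofAdd_sum]
    rfl
  have hbij : Function.Bijective (fun a : (Fin D → Fin N) => ∏ i, g i ^ (a i : ℕ)) := by
    constructor
    · intro a b hab
      simp only [hprod] at hab
      have h1 := Multiplicative.ofAdd.injective hab
      rw [QuotientAddGroup.eq] at h1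
      have hz : (fun _ => (0 : ℤ)) ∈ Λ ∧ ∀ i, (0 : ℤ) ≤ ((b i : ℕ) : ℤ) ∧
          ((b i : ℕ) : ℤ) < 0 + N := by
        refine ⟨Λ.zero_mem, fun i => ⟨by positivity, ?_⟩⟩
        have := (b i).2
        push_cast
        omega
      have h2 := (hΛ (fun i => ((b i : ℕ) : ℤ))).unique
        (y₁ := -(fun i => ((a i : ℕ) : ℤ)) + (fun i => ((b i : ℕ) : ℤ)))
        (y₂ := fun _ => (0 : ℤ)) ⟨h1, fun i => ?_⟩ hz
      · funext i
        have h3 := congrFun h2 i
        simp only [Pi.add_apply, Pi.neg_apply] at h3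
        apply Fin.ext
        omega
      · have h3 := (a i).2
        simp only [Pi.add_apply, Pi.neg_apply]
        constructor
        · omega
        · omega
    · intro y
      obtain ⟨y, rfl⟩ := Multiplicative.ofAdd.surjective y
      obtain ⟨x, rfl⟩ := QuotientAddGroup.mk_surjective y
      obtain ⟨v, ⟨hv1, hv2⟩, -⟩ := hΛ x
      have hlt : ∀ i, (x i - v i).toNat < N := by
        intro i
        have := hv2 i
        omega
      refine ⟨fun i => ⟨(x i - v i).toNat, hlt i⟩, ?_⟩
      · refine (hprod _).trans ?_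
        congr 1
        rw [QuotientAddGroup.eq]
        show -(fun i => (((x i - v i).toNat : ℕ) : ℤ)) + x ∈ Λ
        have : -(fun i => (((x i - v i).toNat : ℕ) : ℤ)) + x = v := by
          funext i
          have := hv2 i
          simp only [Pi.add_apply, Pi.neg_apply]
          omega
        rw [this]
        exact hv1
  have : Finite G := Finite.of_surjective _ hbij.2
  obtain ⟨k, hk⟩ := h G (Fin D) g (fun _ => N) (fun _ => hN) hbij
  refine ⟨k, ?_⟩
  have h1 : g k ^ N = Multiplicative.ofAdd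
      (QuotientAddGroup.mk (N • (Pi.single k (1 : ℤ) : Fin D → ℤ)) : (Fin D → ℤ) ⧸ Λ) := rfl
  rw [h1] at hk
  have h2 : (QuotientAddGroup.mk (N • (Pi.single k (1 : ℤ) : Fin D → ℤ)) : (Fin D → ℤ) ⧸ Λ) = 0 :=
    hk
  rw [QuotientAddGroup.eq_zero_iff] at h2
  have h3 : N • (Pi.single k (1 : ℤ) : Fin D → ℤ) = Pi.single k (N : ℤ) := by
    funext j
    by_cases hj : j = k
    · subst hj
      simp
    · simp [hj]
  rwa [h3] at h2

end H947TP
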